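import Mathlib

set_option autoImplicit false

/-!
Graded filtrations, v-numbers and Castelnuovo-Mumford regularity of homogeneous ideals of a standard
graded algebra over a field.
-/

namespace Q36.VN

open Finset

variable {K R : Type*} [Field K] [CommRing R] [Algebra K R]

/-- `R` is a standard graded `K`-algebra with graded pieces `𝒜 n`: `R = ⨁ 𝒜 n`,
`𝒜 m * 𝒜 n ⊆ 𝒜 (m + n)`, `𝒜 0 = K`, and `R` is generated over `K` by the finite dimensional space
`𝒜 1`. -/
structure StandardGraded (𝒜 : ℕ → Submodule K R) : Prop where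
  gradedMonoid : SetLike.GradedMonoid 𝒜
  internal : DirectSum.IsInternal 𝒜
  zero : 𝒜 0 = 1
  finite : Module.Finite K (𝒜 1)
  gen : Algebra.adjoin K (𝒜 1 : Set R) = ⊤

/-- A graded filtration: homogeneous ideals `I 0 = R ⊇ I 1 ⊇ I 2 ⊇ ⋯` with
`I k * I l ⊆ I (k + l)`. -/
structure IsGradedFiltration (𝒜 : ℕ → Submodule K R) (I : ℕ → Ideal R) : Prop where
  homogeneous : ∀ k, ∃ S : Set R, (∀ a ∈ S, ∃ n, a ∈ 𝒜 n) ∧ I k = Ideal.span S
  zero : I 0 = ⊤
  anti : ∀ k, I (k + 1) ≤ I k
  mul : ∀ k l, I k * I l ≤ I (k + l)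

omit [Algebra K R] in
/-- The Rees algebra of a filtration: the subring of `R[X]` generated by the monomials `a X ^ k`
with `a ∈ I k`. -/
noncomputable def reesRing (I : ℕ → Ideal R) : Subring (Polynomial R) :=
  Subring.closure {p | ∃ k, ∃ a ∈ I k, p = Polynomial.monomial k a}

/-- The v-number of the ideal `I`: the least degree of a homogeneous element `g` such that
`(I : g) = {r | r g ∈ I}` is a prime ideal `p` (an associated prime of `I`). -/
noncomputable def vNumber (𝒜 : ℕ → Submodule K R) (I : Ideal R) : ℕ :=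
  sInf {n | ∃ g ∈ 𝒜 n, ∃ p : Ideal R, p.IsPrime ∧ ∀ r, r ∈ p ↔ r * g ∈ I}

/-- The homogeneous elements of degree `m`, for an integer `m` (only `0` if `m` is negative). -/
def piece (𝒜 : ℕ → Submodule K R) (m : ℤ) : Submodule K R := if 0 ≤ m then 𝒜 m.toNat else ⊥

/-- The cochains of the Koszul complex of `f 0 ^ s, …, f (n - 1) ^ s` with coefficients in the
ideal `I`, of cohomological degree `i` and internal degree `d`: the value `c A` is the coefficient
of the basis element `e_A`, which has cohomological degree `|A|` and internal degree `-s ∑ deg f_a`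
(`e a` is the degree of `f a`). -/
def cochains (𝒜 : ℕ → Submodule K R) (I : Ideal R) {n : ℕ} (e : Fin n → ℕ) (s : ℕ) (i d : ℤ) :
    Set (Finset (Fin n) → R) :=
  {c | ∀ A, c A ∈ I ∧ ((A.card : ℤ) ≠ i → c A = 0) ∧
    c A ∈ piece 𝒜 (d + s * ∑ a ∈ A, (e a : ℤ))}

/-- The differential of the Koszul complex of `f 0 ^ s, …, f (n - 1) ^ s`. -/
def koszul {n : ℕ} (f : Fin n → R) (s : ℕ) (c : Finset (Fin n) → R) (B : Finset (Fin n)) : R :=
  ∑ b ∈ B, (-1) ^ (B.filter (· < b)).card * (f b ^ s * c (B.erase b))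

/-- The map from the Koszul complex of the powers `f j ^ s` to the one of the powers
`f j ^ (s + u)`. -/
def transition {n : ℕ} (f : Fin n → R) (u : ℕ) (c : Finset (Fin n) → R) (B : Finset (Fin n)) : R :=
  (∏ a ∈ B, f a) ^ u * c B

/-- The homogeneous part of degree `d` of the local cohomology module
`H^i(I) = colim_s H^i(f 0 ^ s, …, f (n - 1) ^ s; I)` of the `R`-module `I` is zero: every cocycle
becomes a coboundary at a later stage. -/
def LCZero (𝒜 : ℕ → Submodule K R) (I : Ideal R) {n : ℕ} (f : Fin n → R) (e : Fin n → ℕ)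
    (i d : ℤ) : Prop :=
  ∀ s, ∀ c ∈ cochains 𝒜 I e s i d, (∀ B, koszul f s c B = 0) →
    ∃ u, ∃ b ∈ cochains 𝒜 I e (s + u) (i - 1) d, ∀ B, koszul f (s + u) b B = transition f u c B

/-- `f` consists of homogeneous elements of positive degrees `e`, and the ideal generated by them
contains a power of each homogeneous element of positive degree. The local cohomology with support
in `f 0, …, f (n - 1)` is then the local cohomology with support in `R_+`. -/
structure DefinesIrrelevant (𝒜 : ℕ → Submodule K R) {n : ℕ} (f : Fin n → R) (e : Fin n → ℕ) :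
    Prop where
  pos : ∀ j, 0 < e j
  mem : ∀ j, f j ∈ 𝒜 (e j)
  radical : ∀ m, 0 < m → ∀ r ∈ 𝒜 m, r ∈ (Ideal.span (Set.range f)).radical

/-- The Castelnuovo-Mumford regularity of the homogeneous ideal `I` (as an `R`-module):
`max {d + i | H^i_{R_+}(I)_d ≠ 0}`. -/
noncomputable def regularity (𝒜 : ℕ → Submodule K R) (I : Ideal R) {n : ℕ} (f : Fin n → R)
    (e : Fin n → ℕ) : EReal :=
  sSup {x | ∃ i d : ℤ, ¬ LCZero 𝒜 I f e i d ∧ x = (((d + i : ℤ) : ℝ) : EReal)}

end Q36.VN
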