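import Pool.Agent.Q36.VN.VNum

set_option autoImplicit false

/-!
The v-number of the ideals `(t ^ k)`.
-/

namespace Q36.VN

open MvPolynomial Finset TrivSqZeroExt

variable {K : Type*} [Field K]

lemma tk_succ (k : ℕ) : tk K (k + 1) = tk K 1 * tk K k := by
  rw [tk, tk, tk, ← pow_add, add_comm]

lemma mul_tk_cancel {r r' : RR K} {k : ℕ} (h : r * tk K k = r' * tk K k) : r = r' := by
  rw [← sub_eq_zero, ← sub_mul] at h
  exact sub_eq_zero.1 (mul_tk_eq_zero h)

lemma mem_Ik {k : ℕ} {r : RR K} : r ∈ Ik K k ↔ ∃ a, a * tk K k = r := by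
  rw [Ik, Ideal.mem_span_singleton']
  rfl

/-- `a * t ^ k ∈ (t ^ (k + 1))` means that `t` divides both parts of `a` -/
lemma mul_tk_mem_Ik {k : ℕ} {a : RR K} : a * tk K k ∈ Ik K (k + 1) ↔
    (X 3 : TT K) ∣ a.fst ∧ ∀ i, (X 2 : BB K) ∣ a.snd i := by
  rw [mem_Ik]
  constructor
  · rintro ⟨b, hb⟩
    rw [tk_succ, ← mul_assoc] at hb
    have h1 := mul_tk_cancel hb
    rw [← h1]
    refine ⟨?_, fun i => ?_⟩
    · rw [mul_tk_fst, pow_one]
      exact dvd_mul_right _ _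
    · rw [mul_tk_snd, pow_one]
      exact dvd_mul_right _ _
  · rintro ⟨⟨p, hp⟩, h⟩
    obtain ⟨w, hw⟩ : ∃ w : MM K, ∀ i, a.snd i = X 2 * w i :=
      ⟨fun i => (h i).choose, fun i => (h i).choose_spec⟩
    refine ⟨(inl p + inr w : RR K), ?_⟩
    rw [tk_succ, ← mul_assoc]
    congr 1
    refine TrivSqZeroExt.ext ?_ (MM.ext fun i => ?_)
    · rw [mul_tk_fst, fst_add, fst_inl, fst_inr, add_zero, pow_one, hp]
    · rw [mul_tk_snd, snd_add, snd_inl, snd_inr, zero_add, pow_one, hw]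

/-- the lower bound -/
theorem lower (h2 : (2 : K) ≠ 0) (k : ℕ) {n : ℕ} {g : RR K} (hg : g ∈ GA K n)
    {P : Ideal (RR K)} (hP : P.IsPrime) (h : ∀ r, r ∈ P ↔ r * g ∈ Ik K (k + 1)) :
    k + 3 ≤ n := by
  -- `t ∈ P`
  have ht : ff K 3 ∈ P := by
    refine hP.mem_of_pow_mem (k + 1) ?_
    rw [h, mem_Ik]
    exact ⟨g, mul_comm _ _⟩
  have ht' := (h _).1 ht
  rw [mem_Ik] at ht'
  obtain ⟨a, ha⟩ := ht'
  have hga : g = a * tk K k := by
    have h3 : tk K 1 = ff K 3 := by rw [tk, pow_one]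
    rw [tk_succ, h3, mul_comm (ff K 3) g, mul_comm (ff K 3), ← mul_assoc] at ha
    have h4 : a * tk K k * tk K 1 = g * tk K 1 := by rw [h3, ha]
    exact (mul_tk_cancel h4).symm
  have hg1 : g ∉ Ik K (k + 1) := by
    intro h3
    apply hP.ne_top
    rw [Ideal.eq_top_iff_one, h, one_mul]
    exact h3
  rw [hga, mul_tk_mem_Ik] at hg1
  have hga' : a ∈ piece (GA K) ((n : ℤ) - k) := by
    rw [← mul_tk_mem, ← hga, mem_piece]
    exact hg
  obtain ⟨ha1, ha2⟩ := mem_piece.1 hga'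
  by_contra hn
  rw [not_le] at hn
  -- elements of square zero
  have hinr : ∀ w : MM K, (inr w : RR K) ∈ P := by
    intro w
    refine hP.mem_of_pow_mem 2 ?_
    rw [pow_two, inr_mul_inr]
    exact P.zero_mem
  have h5 : (X 3 : TT K) ∣ a.fst := by
    refine small_action (l := (n : ℤ) - k) (by omega) ha1 fun w i => ?_
    have h6 := (h _).1 (hinr w)
    rw [hga, ← mul_assoc, mul_tk_mem_Ik] at h6
    have h7 := h6.2 i
    rwa [snd_mul, fst_inr, snd_inr, zero_smul, zero_add, op_smul_eq_smul] at h7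
  have hx : ff K 0 ∈ P := by
    refine hP.mem_of_pow_mem 5 ?_
    rw [h, hga, ← mul_assoc, mul_tk_mem_Ik]
    have e : (ff K 0) ^ 5 = inl (X 0 ^ 5) :=
      (map_pow (inlHom (TT K) (MM K)) (X 0) 5).symm
    rw [e, fst_mul, fst_inl, snd_mul, snd_inl, fst_inl, smul_zero, add_zero,
      X0_pow_smul (le_refl 5)]
    exact ⟨dvd_mul_of_dvd_right h5 _, fun i => dvd_zero _⟩
  have hx' := (h _).1 hx
  rw [hga, ← mul_assoc, mul_tk_mem_Ik] at hx'
  have h8 : ∀ i, (X 2 : BB K) ∣ xm a.snd i := by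
    intro i
    have h9 := hx'.2 i
    rwa [ff, snd_mul, snd_inl, fst_inl, smul_zero, add_zero, X0_smul] at h9
  exact hg1 ⟨h5, small_kernel h2 (δ := (n : ℤ) - k - 1) (by omega) ha2 h8⟩

/-- an element killed by `x` -/
noncomputable def kap (K : Type*) [Field K] : MM K := ![X 1 ^ 2, -(X 0 * X 1), X 0 ^ 2, 0, 0]

lemma xm_kap : xm (kap K) = 0 := by
  refine MM.ext fun i => ?_
  fin_cases i <;> simp [xm_apply, kap] <;> ring

lemma kap_mem : kap K ∈ HM K 2 := by
  have h1 : ∀ i j : Fin 3, (X i * X j : BB K) ∈ HP K (Fin 3) 2 := by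
    intro i j
    have := mul_mem_HP (X_mem_HP (K := K) i) (X_mem_HP (K := K) j)
    exact this
  intro i
  fin_cases i
  · change (X 1 ^ 2 : BB K) ∈ _
    rw [pow_two]; exact h1 1 1
  · exact Submodule.neg_mem _ (h1 0 1)
  · change (X 0 ^ 2 : BB K) ∈ _
    rw [pow_two]; exact h1 0 0
  · exact Submodule.zero_mem _
  · exact Submodule.zero_mem _

/-- setting `x = 0` -/
noncomputable def rho (K : Type*) [Field K] : TT K →ₐ[K] BB K :=
  aeval (Fin.cases 0 (fun j : Fin 3 => X j))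

lemma rho_X0 : rho K (X 0) = 0 := aeval_X _ _

lemma rho_Xs (j : Fin 3) : rho K (X j.succ) = X j := aeval_X _ _

lemma smul_kap (p : TT K) : p • kap K = rho K p • kap K := by
  induction p using MvPolynomial.induction_on with
  | C a =>
    have e : rho K (C a) = C a := (rho K).commutes a
    rw [e, C_smul]
    exact MM.ext fun i => by rw [MM.smulK_apply, MM.smul_apply, C_mul']
  | add p q hp hq => rw [add_smul, map_add, add_smul, hp, hq]
  | mul_X p j hp =>
    rw [mul_comm, mul_smul, hp, map_mul]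
    refine Fin.cases ?_ (fun j => ?_) j
    · rw [X0_smul, rho_X0, zero_mul, zero_smul, map_smul, xm_kap, smul_zero]
    · rw [Xs_smul, rho_Xs, mul_smul]

/-- the upper bound -/
theorem upper (k : ℕ) : ∃ g ∈ GA K (k + 3), ∃ P : Ideal (RR K), P.IsPrime ∧
    ∀ r, r ∈ P ↔ r * g ∈ Ik K (k + 1) := by
  refine ⟨inr (kap K) * tk K k, ?_, ?_⟩
  · have h1 : (inr (kap K) * tk K k) ∈ piece (GA K) ((k + 3 : ℕ) : ℤ) := by
      rw [mul_tk_mem, mem_piece, fst_inr, snd_inr]
      refine ⟨Submodule.zero_mem _, ?_⟩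
      have e : ((k + 3 : ℕ) : ℤ) - k - 1 = 2 := by push_cast; ring
      rw [e]
      exact kap_mem
    rw [mem_piece] at h1
    exact h1
  · have hprime : (Ideal.span {(X 2 : BB K)}).IsPrime :=
      (Ideal.span_singleton_prime (X_ne_zero _)).2 X_prime
    refine ⟨Ideal.comap ((rho K).toRingHom.comp (fstHom K (TT K) (MM K)).toRingHom)
      (Ideal.span {(X 2 : BB K)}), Ideal.IsPrime.comap _, fun r => ?_⟩
    rw [Ideal.mem_comap, ← mul_assoc, mul_tk_mem_Ik]
    have e1 : (r * inr (kap K)).fst = 0 := by rw [fst_mul, fst_inr, mul_zero]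
    have e2 : (r * inr (kap K)).snd = rho K r.fst • kap K := by
      rw [snd_mul, fst_inr, snd_inr, MulOpposite.op_zero, zero_smul, add_zero, smul_kap]
    rw [e1, e2]
    have e3 : ((rho K).toRingHom.comp (fstHom K (TT K) (MM K)).toRingHom) r = rho K r.fst := rfl
    rw [e3, Ideal.mem_span_singleton]
    constructor
    · intro h
      exact ⟨dvd_zero _, fun i => dvd_mul_of_dvd_left h _⟩
    · rintro ⟨_, h⟩
      have h0 := h 0
      rw [MM.smul_apply] at h0
      have e4 : kap K 0 = X 1 ^ 2 := rfl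
      rw [e4, mul_comm] at h0
      exact X_dvd_of_mul (by decide) h0

theorem vNumber_eq (h2 : (2 : K) ≠ 0) (k : ℕ) : vNumber (GA K) (Ik K (k + 1)) = k + 3 := by
  unfold vNumber
  apply le_antisymm
  · exact Nat.sInf_le (upper k)
  · obtain ⟨g, hg, P, hP, h⟩ := Nat.sInf_mem (s := {n | ∃ g ∈ GA K n, ∃ p : Ideal (RR K),
      p.IsPrime ∧ ∀ r, r ∈ p ↔ r * g ∈ Ik K (k + 1)}) ⟨_, upper k⟩
    exact lower h2 k hg hP h

end Q36.VN
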