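import Pool.Agent.Q36.VN.Grad

set_option autoImplicit false

/-!
The ring is a standard graded algebra; the filtration by the powers of `t`.
-/

namespace Q36.VN

open MvPolynomial Finset TrivSqZeroExt

variable (K : Type*) [Field K]

/-- basis vector -/
noncomputable def ev (i : Fin 5) : MM K := fun j => if j = i then 1 else 0

variable {K}

lemma inr_mem_GA {w : MM K} {m : ℤ} {n : ℕ} (hw : w ∈ HM K m) (h : m = (n : ℤ) - 1) :
    (inr w : RR K) ∈ GA K n := by
  rw [mem_GA, fst_inr, snd_inr, ← h]
  exact ⟨Submodule.zero_mem _, hw⟩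

lemma inl_mem_GA {p : TT K} {n : ℕ} (hp : p ∈ HP K (Fin 4) n) : (inl p : RR K) ∈ GA K n := by
  rw [mem_GA, fst_inl, snd_inl]
  exact ⟨hp, Submodule.zero_mem _⟩

lemma ev_mem (i : Fin 5) : ev K i ∈ HM K 0 := by
  intro j
  unfold ev
  split_ifs
  · exact one_mem_HP
  · exact Submodule.zero_mem _

lemma eq_sum_ev (w : MM K) : w = ∑ i, w i • ev K i := by
  refine MM.ext fun j => ?_
  have : (∑ i, w i • ev K i) j = ∑ i, (w i • ev K i) j := Finset.sum_apply _ _ _
  rw [this, sum_eq_single j]
  · rw [MM.smul_apply, ev, if_pos rfl, mul_one]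
  · intro b _ hb
    rw [MM.smul_apply, ev, if_neg hb.symm, mul_zero]
  · intro h; exact absurd (mem_univ _) h

/-- a polynomial in `y, z, t` as a polynomial in `x, y, z, t` -/
noncomputable def up : BB K →ₐ[K] TT K := rename (Fin.succ : Fin 3 → Fin 4)

lemma up_smul (b : BB K) (w : MM K) : up b • w = b • w := by
  induction b using MvPolynomial.induction_on with
  | C a =>
    rw [up, rename_C, C_smul]
    exact MM.ext fun i => by rw [MM.smulK_apply, MM.smul_apply, C_mul']
  | add p q hp hq => rw [map_add, add_smul, add_smul, hp, hq]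
  | mul_X p j hp =>
    have e : up (X j : BB K) = X j.succ := rename_X _ _
    rw [map_mul, e, mul_comm, mul_smul, hp, Xs_smul, mul_comm p, mul_smul]

variable (K)

/-- generators -/
noncomputable def gens : Set (RR K) :=
  Set.range (fun j : Fin 4 => (inl (X j) : RR K)) ∪ Set.range (fun i : Fin 5 => inr (ev K i))

lemma gens_sub : gens K ⊆ GA K 1 := by
  rintro _ (⟨j, rfl⟩ | ⟨i, rfl⟩)
  · exact inl_mem_GA (by exact_mod_cast X_mem_HP j)
  · exact inr_mem_GA (ev_mem i) (by norm_num)

lemma adjoin_gens : Algebra.adjoin K (gens K) = ⊤ := by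
  rw [eq_top_iff]
  have h1 : ∀ p : TT K, (inl p : RR K) ∈ Algebra.adjoin K (gens K) := by
    intro p
    induction p using MvPolynomial.induction_on with
    | C a =>
      have := (Algebra.adjoin K (gens K)).algebraMap_mem a
      rwa [algebraMap_eq_inl', algebraMap_eq] at this
    | add p q hp hq => rw [inl_add]; exact Subalgebra.add_mem _ hp hq
    | mul_X p j hp =>
      rw [inl_mul]
      exact Subalgebra.mul_mem _ hp (Algebra.subset_adjoin (Or.inl ⟨j, rfl⟩))
  have h2 : ∀ w : MM K, (inr w : RR K) ∈ Algebra.adjoin K (gens K) := by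
    intro w
    rw [eq_sum_ev w]
    have e : (inr (∑ i, w i • ev K i) : RR K) =
        ∑ i, inl (up (w i)) * inr (ev K i) := by
      have e1 : (inr (∑ i, w i • ev K i) : RR K) = ∑ i, inr (w i • ev K i) :=
        map_sum (inrHom (TT K) (MM K)) _ _
      rw [e1]
      exact sum_congr rfl fun i _ => by rw [inl_mul_inr, up_smul]
    rw [e]
    exact Subalgebra.sum_mem _ fun i _ =>
      Subalgebra.mul_mem _ (h1 _) (Algebra.subset_adjoin (Or.inr ⟨i, rfl⟩))
  intro r _
  rw [← inl_fst_add_inr_snd_eq r]
  exact Subalgebra.add_mem _ (h1 _) (h2 _)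

lemma gens_finite : (gens K).Finite := (Set.finite_range _).union (Set.finite_range _)

lemma gen_GA : Algebra.adjoin K (GA K 1 : Set (RR K)) = ⊤ := by
  rw [eq_top_iff, ← adjoin_gens K]
  exact Algebra.adjoin_mono (gens_sub K)

instance noeth : IsNoetherianRing (RR K) := by
  have : Algebra.FiniteType K (RR K) :=
    ⟨⟨(gens_finite K).toFinset, by rw [Set.Finite.coe_toFinset]; exact adjoin_gens K⟩⟩
  exact Algebra.FiniteType.isNoetherianRing K (RR K)

lemma finite_GA : Module.Finite K (GA K 1) := by
  classical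
  let φ : GA K 1 →ₗ[K] (Fin 4 → K) × (Fin 5 → K) :=
    { toFun := fun r => (fun j => coeff (Finsupp.single j 1) r.1.fst, fun i => coeff 0 (r.1.snd i))
      map_add' := fun r r' => by
        refine Prod.ext (funext fun j => ?_) (funext fun i => ?_)
        · exact coeff_add _ _ _
        · exact coeff_add _ _ _
      map_smul' := fun c r => by
        refine Prod.ext (funext fun j => ?_) (funext fun i => ?_)
        · exact coeff_smul _ _ _
        · exact coeff_smul _ _ _ }
  refine Module.Finite.of_injective φ ?_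
  rw [injective_iff_map_eq_zero]
  rintro ⟨r, h1, h2⟩ hr
  have e1 : ∀ j, coeff (Finsupp.single j 1) r.fst = 0 := fun j => congrFun (congrArg Prod.fst hr) j
  have e2 : ∀ i, coeff 0 (r.snd i) = 0 := fun i => congrFun (congrArg Prod.snd hr) i
  refine Subtype.ext (TrivSqZeroExt.ext ?_ (MM.ext fun i => ?_))
  · change r.fst = 0
    ext a
    rw [coeff_zero]
    by_contra h
    have h3 : (a.degree : ℤ) = 1 := by exact_mod_cast h1 a h
    have h4 : a.degree = 1 := by exact_mod_cast h3
    have h5 : a ≠ 0 := by
      rintro rfl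
      rw [map_zero] at h4
      omega
    obtain ⟨j, hj⟩ := Finsupp.ne_iff.1 h5
    rw [Finsupp.zero_apply] at hj
    have h6 : Finsupp.single j 1 ≤ a := Finsupp.single_le_iff.2 (Nat.one_le_iff_ne_zero.2 hj)
    have h7 : a = (a - Finsupp.single j 1) + Finsupp.single j 1 :=
      (tsub_add_cancel_of_le h6).symm
    have h8 : (a - Finsupp.single j 1).degree = 0 := by
      have := congrArg Finsupp.degree h7
      rw [map_add, Finsupp.degree_single] at this
      omega
    rw [Finsupp.degree_eq_zero_iff] at h8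
    rw [h8, zero_add] at h7
    exact h (h7 ▸ e1 j)
  · change r.snd i = 0
    ext a
    rw [coeff_zero]
    by_contra h
    have h3 : (a.degree : ℤ) = ((1 : ℕ) : ℤ) - 1 := h2 i a h
    have h4 : a.degree = 0 := by
      push_cast at h3
      omega
    rw [Finsupp.degree_eq_zero_iff] at h4
    exact h (h4 ▸ e2 i)

lemma standard_GA : StandardGraded (GA K) where
  gradedMonoid := graded_GA K
  internal := internal_GA K
  zero := zero_GA K
  finite := finite_GA K
  gen := gen_GA K

/-- the filtration -/
noncomputable def Ik (k : ℕ) : Ideal (RR K) := Ideal.span {ff K 3 ^ k}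

lemma Ik_eq (k : ℕ) : Ik K k = Ideal.span {ff K 3} ^ k := by
  rw [Ik, Ideal.span_singleton_pow]

lemma ff_mem (j : Fin 4) : ff K j ∈ GA K 1 := gens_sub K (Or.inl ⟨j, rfl⟩)

lemma filtration_Ik : IsGradedFiltration (GA K) (Ik K) where
  homogeneous := by
    intro k
    refine ⟨{ff K 3 ^ k}, ?_, rfl⟩
    rintro _ rfl
    refine ⟨k, ?_⟩
    have : SetLike.GradedMonoid (GA K) := graded_GA K
    have h := SetLike.pow_mem_graded k (ff_mem K 3)
    rwa [smul_eq_mul, mul_one] at h
  zero := by rw [Ik_eq, pow_zero, Ideal.one_eq_top]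
  anti := fun k => by
    rw [Ik_eq, Ik_eq]
    exact Ideal.pow_le_pow_right (Nat.le_succ k)
  mul := fun k l => by
    rw [Ik_eq, Ik_eq, Ik_eq, pow_add]

lemma noetherian_Ik : IsNoetherianRing (reesRing (Ik K)) := by
  have h : reesRing (Ik K) = (reesAlgebra (Ideal.span {ff K 3})).toSubring := by
    apply le_antisymm
    · unfold reesRing
      rw [Subring.closure_le]
      rintro _ ⟨k, a, ha, rfl⟩
      rw [Ik_eq] at ha
      exact reesAlgebra.monomial_mem.2 ha
    · intro p hp
      have hp' : ∀ i, p.coeff i ∈ Ideal.span {ff K 3} ^ i := (mem_reesAlgebra_iff _ p).1 hp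
      rw [p.as_sum_support]
      refine Subring.sum_mem _ fun i _ => Subring.subset_closure ⟨i, _, ?_, rfl⟩
      rw [Ik_eq]
      exact hp' i
  rw [h]
  exact inferInstanceAs (IsNoetherianRing (reesAlgebra (Ideal.span {ff K 3})))

lemma irrelevant_ff : DefinesIrrelevant (GA K) (ff K) (fun _ => 1) where
  pos := fun _ => Nat.one_pos
  mem := ff_mem K
  radical := by
    intro m hm r hr
    have hx : ∀ p : TT K, p ∈ Ideal.span (Set.range (X : Fin 4 → TT K)) →
        (inl p : RR K) ∈ Ideal.span (Set.range (ff K)) := by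
      intro p hp
      have h := Ideal.mem_map_of_mem (inlHom (TT K) (MM K)) hp
      rw [Ideal.map_span] at h
      have e : (inlHom (TT K) (MM K)) '' Set.range (X : Fin 4 → TT K) = Set.range (ff K) := by
        rw [← Set.range_comp]
        rfl
      rw [e] at h
      exact h
    have h1 : r.fst ∈ Ideal.span (Set.range (X : Fin 4 → TT K)) := by
      rw [r.fst.as_sum]
      refine Ideal.sum_mem _ fun a ha => ?_
      have h2 : (a.degree : ℤ) = m := hr.1 a (mem_support_iff.1 ha)
      have h5 : a ≠ 0 := by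
        rintro rfl
        rw [map_zero] at h2
        omega
      obtain ⟨j, hj⟩ := Finsupp.ne_iff.1 h5
      rw [Finsupp.zero_apply] at hj
      have h6 : Finsupp.single j 1 ≤ a := Finsupp.single_le_iff.2 (Nat.one_le_iff_ne_zero.2 hj)
      have h7 : a = (a - Finsupp.single j 1) + Finsupp.single j 1 :=
        (tsub_add_cancel_of_le h6).symm
      have h8 : (monomial a (coeff a r.fst) : TT K) =
          monomial (a - Finsupp.single j 1) (coeff a r.fst) * X j := by
        rw [X, monomial_mul, mul_one, ← h7]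
      rw [h8]
      exact Ideal.mul_mem_left _ _ (Ideal.subset_span ⟨j, rfl⟩)
    have h2 : (inl r.fst : RR K) ∈ (Ideal.span (Set.range (ff K))).radical :=
      Ideal.le_radical (hx _ h1)
    have h3 : (inr r.snd : RR K) ∈ (Ideal.span (Set.range (ff K))).radical := by
      refine ⟨2, ?_⟩
      rw [pow_two, inr_mul_inr]
      exact Ideal.zero_mem _
    rw [← inl_fst_add_inr_snd_eq r]
    exact Ideal.add_mem _ h2 h3

end Q36.VN
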