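import Pool.Agent.Q36.VN.Van

set_option autoImplicit false

/-!
The grading of the ring.
-/

namespace Q36.VN

open MvPolynomial Finset TrivSqZeroExt

variable (K : Type*) [Field K]

/-- the graded pieces -/
noncomputable def GA (n : ℕ) : Submodule K (RR K) where
  carrier := {r | r.fst ∈ HP K (Fin 4) n ∧ r.snd ∈ HM K ((n : ℤ) - 1)}
  add_mem' := fun h h' => ⟨Submodule.add_mem _ h.1 h'.1, Submodule.add_mem _ h.2 h'.2⟩
  zero_mem' := ⟨Submodule.zero_mem _, Submodule.zero_mem _⟩
  smul_mem' := fun c _ h => ⟨Submodule.smul_mem _ c h.1, Submodule.smul_mem _ c h.2⟩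

variable {K}

lemma mem_GA {n : ℕ} {r : RR K} :
    r ∈ GA K n ↔ r.fst ∈ HP K (Fin 4) n ∧ r.snd ∈ HM K ((n : ℤ) - 1) := Iff.rfl

lemma HM_neg {w : MM K} {m : ℤ} (hm : m < 0) (hw : w ∈ HM K m) : w = 0 :=
  MM.ext fun i => HP_neg hm (hw i)

lemma mem_piece {m : ℤ} {r : RR K} :
    r ∈ piece (GA K) m ↔ r.fst ∈ HP K (Fin 4) m ∧ r.snd ∈ HM K (m - 1) := by
  unfold piece
  split_ifs with h
  · rw [mem_GA, Int.toNat_of_nonneg h]
  · rw [Submodule.mem_bot]
    constructor
    · rintro rfl
      exact ⟨Submodule.zero_mem _, Submodule.zero_mem _⟩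
    · rintro ⟨h1, h2⟩
      refine TrivSqZeroExt.ext ?_ ?_
      · rw [HP_neg (by omega) h1, fst_zero]
      · rw [HM_neg (by omega) h2, snd_zero]

lemma one_mem_HP {σ : Type*} : (1 : MvPolynomial σ K) ∈ HP K σ 0 := by
  have := monomial_mem_HP (K := K) (0 : σ →₀ ℕ) (1 : K)
  simpa using this

lemma X_mem_HP {σ : Type*} (j : σ) : (X j : MvPolynomial σ K) ∈ HP K σ 1 := by
  have := X_pow_mul_mem_HP (one_mem_HP (K := K) (σ := σ)) j 1
  simpa using this

variable (K)

lemma graded_GA : SetLike.GradedMonoid (GA K) where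
  one_mem := by
    rw [mem_GA, fst_one, snd_one]
    exact ⟨one_mem_HP, Submodule.zero_mem _⟩
  mul_mem := by
    intro i j r r' hr hr'
    rw [mem_GA] at hr hr' ⊢
    rw [fst_mul, snd_mul]
    push_cast
    refine ⟨mul_mem_HP hr.1 hr'.1, Submodule.add_mem _ ?_ ?_⟩
    · have := smul_mem_HM hr.1 hr'.2
      rwa [← add_sub_assoc] at this
    · rw [op_smul_eq_smul]
      have := smul_mem_HM hr'.1 hr.2
      rwa [← add_sub_assoc, add_comm (j : ℤ)] at this

/-- homogeneous component, integer degree -/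
noncomputable def hc {σ : Type*} (m : ℤ) (p : MvPolynomial σ K) : MvPolynomial σ K :=
  if 0 ≤ m then homogeneousComponent m.toNat p else 0

variable {K}

lemma coeff_hc {σ : Type*} (m : ℤ) (p : MvPolynomial σ K) (a : σ →₀ ℕ) :
    coeff a (hc K m p) = if (a.degree : ℤ) = m then coeff a p else 0 := by
  unfold hc
  split_ifs with h1 h2 h2
  · rw [coeff_homogeneousComponent, if_pos (by omega)]
  · rw [coeff_homogeneousComponent, if_neg (by omega)]
  · omega
  · rw [coeff_zero]

lemma hc_add {σ : Type*} (m : ℤ) (p q : MvPolynomial σ K) :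
    hc K m (p + q) = hc K m p + hc K m q := by
  ext a
  rw [coeff_add, coeff_hc, coeff_hc, coeff_hc]
  split_ifs
  · rw [coeff_add]
  · rw [add_zero]

lemma hc_of_mem {σ : Type*} {m l : ℤ} {p : MvPolynomial σ K} (hp : p ∈ HP K σ l) :
    hc K m p = if l = m then p else 0 := by
  ext a
  rw [coeff_hc]
  by_cases h : coeff a p = 0
  · rw [h, ite_self]
    split_ifs
    · rw [h]
    · rw [coeff_zero]
  · rw [hp a h]
    split_ifs
    · rfl
    · rw [coeff_zero]

lemma hc_mem {σ : Type*} (m : ℤ) (p : MvPolynomial σ K) : hc K m p ∈ HP K σ m := by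
  intro a ha
  rw [coeff_hc] at ha
  split_ifs at ha with h
  · exact h
  · exact absurd rfl ha

lemma sum_hc {σ : Type*} (p : MvPolynomial σ K) {N : ℕ} (hN : p.totalDegree < N) (e : ℤ)
    (he : e = 0 ∨ (e = 1 ∧ p.totalDegree + 1 < N)) :
    ∑ n ∈ range N, hc K ((n : ℤ) - e) p = p := by
  ext a
  rw [coeff_sum]
  simp_rw [coeff_hc]
  by_cases h : coeff a p = 0
  · rw [h]; simp
  · have h1 : a.degree ≤ p.totalDegree := by
      exact le_totalDegree (mem_support_iff.2 h)
    have h2 : ∃ n₀ : ℕ, n₀ < N ∧ ∀ n : ℕ, (a.degree : ℤ) = n - e ↔ n = n₀ := by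
      rcases he with rfl | ⟨rfl, h3⟩
      · exact ⟨a.degree, by omega, fun n => by omega⟩
      · exact ⟨a.degree + 1, by omega, fun n => by omega⟩
    obtain ⟨n₀, hn₀, h3⟩ := h2
    rw [sum_eq_single_of_mem n₀ (mem_range.2 hn₀)]
    · rw [if_pos ((h3 n₀).2 rfl)]
    · intro n _ hn
      rw [if_neg fun h4 => hn ((h3 n).1 h4)]

/-- homogeneous component of an element of the ring -/
noncomputable def rc (n : ℕ) (r : RR K) : RR K :=
  (hc K n r.fst, fun i => hc K ((n : ℤ) - 1) (r.snd i))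

lemma rc_add (n : ℕ) (r r' : RR K) : rc n (r + r') = rc n r + rc n r' := by
  refine TrivSqZeroExt.ext ?_ ?_
  · exact hc_add (n : ℤ) r.fst r'.fst
  · exact MM.ext fun i => hc_add ((n : ℤ) - 1) (r.snd i) (r'.snd i)

lemma rc_mem (n : ℕ) (r : RR K) : rc n r ∈ GA K n :=
  ⟨hc_mem _ _, fun _ => hc_mem _ _⟩

lemma rc_of_mem {n m : ℕ} {r : RR K} (hr : r ∈ GA K m) : rc n r = if m = n then r else 0 := by
  have h1 : (m : ℤ) = n ↔ m = n := by omega
  have h2 : (m : ℤ) - 1 = (n : ℤ) - 1 ↔ m = n := by omega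
  refine TrivSqZeroExt.ext ?_ (MM.ext fun i => ?_)
  · have := hc_of_mem (m := n) hr.1
    simp only [h1] at this
    refine this.trans ?_
    split_ifs <;> rfl
  · have := hc_of_mem (m := (n : ℤ) - 1) (hr.2 i)
    simp only [h2] at this
    refine this.trans ?_
    split_ifs <;> rfl

lemma sum_rc (r : RR K) : ∃ N, ∑ n ∈ range N, rc n r = r := by
  refine ⟨r.fst.totalDegree + ∑ i, (r.snd i).totalDegree + 2, ?_⟩
  refine TrivSqZeroExt.ext ?_ (MM.ext fun i => ?_)
  · rw [fst_sum]
    have := sum_hc r.fst (N := r.fst.totalDegree + ∑ i, (r.snd i).totalDegree + 2) (by omega) 0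
      (Or.inl rfl)
    simp only [sub_zero] at this
    exact this
  · rw [snd_sum]
    have h1 : (r.snd i).totalDegree ≤ ∑ i, (r.snd i).totalDegree :=
      single_le_sum (f := fun i => (r.snd i).totalDegree) (fun _ _ => Nat.zero_le _) (mem_univ i)
    have := sum_hc (r.snd i) (N := r.fst.totalDegree + ∑ i, (r.snd i).totalDegree + 2)
      (by omega) 1 (Or.inr ⟨rfl, by omega⟩)
    have e : (∑ n ∈ range (r.fst.totalDegree + ∑ i, (r.snd i).totalDegree + 2),
        (rc n r).snd) i = ∑ n ∈ range (r.fst.totalDegree + ∑ i, (r.snd i).totalDegree + 2),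
        hc K ((n : ℤ) - 1) (r.snd i) := Finset.sum_apply _ _ _
    rw [e]
    exact this

variable (K)

lemma internal_GA : DirectSum.IsInternal (GA K) := by
  have key : ∀ (n : ℕ) (x : DirectSum ℕ fun n => GA K n),
      rc n (DirectSum.coeAddMonoidHom (GA K) x) = x n := by
    intro n x
    induction x using DirectSum.induction_on with
    | zero =>
      rw [map_zero, DirectSum.zero_apply]
      have := rc_of_mem (n := n) (m := n) (Submodule.zero_mem (GA K n))
      rw [if_pos rfl] at this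
      exact this
    | of m y =>
      rw [DirectSum.coeAddMonoidHom_of, rc_of_mem y.2, DirectSum.coe_of_apply]
      split_ifs <;> rfl
    | add x y hx hy =>
      rw [map_add, rc_add, hx, hy, DirectSum.add_apply]
      rfl
  constructor
  · rw [injective_iff_map_eq_zero]
    intro x hx
    refine DFinsupp.ext fun n => Subtype.ext ?_
    have := key n x
    rw [hx] at this
    rw [← this]
    have h0 := rc_of_mem (n := n) (m := n) (Submodule.zero_mem (GA K n))
    rw [if_pos rfl] at h0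
    rw [h0]
    rfl
  · intro r
    obtain ⟨N, hN⟩ := sum_rc r
    refine ⟨∑ n ∈ range N, DirectSum.of (fun n => GA K n) n ⟨rc n r, rc_mem n r⟩, ?_⟩
    rw [map_sum]
    conv_rhs => rw [← hN]
    exact sum_congr rfl fun n _ => DirectSum.coeAddMonoidHom_of _ _ _

lemma zero_GA : GA K 0 = 1 := by
  ext r
  rw [Submodule.mem_one]
  constructor
  · rintro ⟨h1, h2⟩
    refine ⟨coeff 0 r.fst, ?_⟩
    rw [algebraMap_eq_inl', algebraMap_eq]
    refine TrivSqZeroExt.ext ?_ ?_
    · rw [fst_inl]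
      ext a
      rw [coeff_C]
      split_ifs with h
      · rw [h]
      · by_contra h3
        have := h1 a (fun h4 => h3 h4.symm)
        have h5 : a.degree = 0 := by exact_mod_cast this
        rw [Finsupp.degree_eq_zero_iff] at h5
        exact h h5.symm
    · rw [snd_inl]
      exact (HM_neg (by norm_num) h2).symm
  · rintro ⟨c, rfl⟩
    rw [algebraMap_eq_inl', algebraMap_eq]
    refine ⟨?_, Submodule.zero_mem _⟩
    rw [fst_inl]
    have := monomial_mem_HP (0 : Fin 4 →₀ ℕ) c
    simpa using this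

end Q36.VN
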