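import Mathlib

set_option autoImplicit false

/-!
The square zero extension of a polynomial ring `K[x,y,z,t]` by the free `K[y,z,t]`-module of rank
five, on which `x` acts by a nilpotent matrix of linear forms.
-/

namespace Q36.VN

open MvPolynomial

variable (K : Type*) [Field K]

/-- `K[y,z,t]` -/
abbrev BB := MvPolynomial (Fin 3) K

/-- `K[x,y,z,t]` -/
abbrev TT := MvPolynomial (Fin 4) K

/-- the free module of rank five over `K[y,z,t]` -/
def MM := Fin 5 → MvPolynomial (Fin 3) K

noncomputable instance : AddCommGroup (MM K) := inferInstanceAs (AddCommGroup (Fin 5 → BB K))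
noncomputable instance instModB : Module (BB K) (MM K) := inferInstanceAs (Module (BB K) (Fin 5 → BB K))
noncomputable instance instModK : Module K (MM K) := inferInstanceAs (Module K (Fin 5 → BB K))
noncomputable instance : IsScalarTower K (BB K) (MM K) :=
  inferInstanceAs (IsScalarTower K (BB K) (Fin 5 → BB K))

variable {K}

@[simp] lemma MM.add_apply (m m' : MM K) (i : Fin 5) : (m + m') i = m i + m' i := rfl
@[simp] lemma MM.neg_apply (m : MM K) (i : Fin 5) : (-m) i = -m i := rfl
@[simp] lemma MM.sub_apply (m m' : MM K) (i : Fin 5) : (m - m') i = m i - m' i := rfl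
@[simp] lemma MM.zero_apply (i : Fin 5) : (0 : MM K) i = 0 := rfl
@[simp] lemma MM.smul_apply (b : BB K) (m : MM K) (i : Fin 5) : (b • m) i = b * m i := rfl
@[simp] lemma MM.smulK_apply (b : K) (m : MM K) (i : Fin 5) : (b • m) i = b • m i := rfl

@[ext] lemma MM.ext {m m' : MM K} (h : ∀ i, m i = m' i) : m = m' := funext h

/-- the action of `x` -/
noncomputable def xm : MM K →ₗ[BB K] MM K where
  toFun m := ![2 * X 1 * m 3, -X 0 * m 3 + X 1 * m 4, -2 * X 0 * m 4, X 0 * m 0 + X 1 * m 1,
    X 0 * m 1 + X 1 * m 2]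
  map_add' m m' := by
    refine MM.ext fun i => ?_
    fin_cases i <;> simp <;> ring
  map_smul' b m := by
    refine MM.ext fun i => ?_
    fin_cases i <;> simp <;> ring

lemma xm_apply (m : MM K) : xm m = ![2 * X 1 * m 3, -X 0 * m 3 + X 1 * m 4, -2 * X 0 * m 4,
    X 0 * m 0 + X 1 * m 1, X 0 * m 1 + X 1 * m 2] := rfl

lemma xm_pow_five : (xm : MM K →ₗ[BB K] MM K) ^ 5 = 0 := by
  refine LinearMap.ext fun m => MM.ext fun i => ?_
  rw [pow_succ, pow_succ, pow_succ, pow_succ, pow_one]
  simp only [Module.End.mul_apply, LinearMap.zero_apply]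
  fin_cases i <;> simp [xm_apply, -mul_eq_zero] <;> ring

variable (K)

/-- the action of `K[x,y,z,t]` -/
noncomputable def act : TT K →+* Module.End (BB K) (MM K) :=
  (Polynomial.aeval (xm : MM K →ₗ[BB K] MM K)).toRingHom.comp (finSuccEquiv K 3).toRingHom

lemma act_apply (p : TT K) : act K p = Polynomial.aeval (xm : MM K →ₗ[BB K] MM K)
    (finSuccEquiv K 3 p) := rfl

lemma act_X_zero : act K (X 0) = xm := by
  rw [act_apply, finSuccEquiv_X_zero, Polynomial.aeval_X]

lemma act_X_succ (j : Fin 3) : act K (X j.succ) = algebraMap (BB K) _ (X j) := by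
  rw [act_apply, finSuccEquiv_X_succ, Polynomial.aeval_C]

lemma act_C (a : K) : act K (C a) = algebraMap (BB K) _ (C a) := by
  rw [act_apply, finSuccEquiv_apply, eval₂Hom_C]
  simp

noncomputable instance instModT : Module (TT K) (MM K) := Module.compHom (MM K) (act K)

noncomputable instance instModTop : Module (TT K)ᵐᵒᵖ (MM K) :=
  Module.compHom (MM K) ((act K).comp ((RingEquiv.toOpposite (TT K)).symm : (TT K)ᵐᵒᵖ →+* TT K))

variable {K}

lemma smul_def (p : TT K) (m : MM K) : p • m = act K p m := rfl

instance : IsCentralScalar (TT K) (MM K) := ⟨fun _ _ => rfl⟩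

lemma X0_smul (m : MM K) : (X 0 : TT K) • m = xm m := by
  rw [smul_def, act_X_zero]

lemma Xs_smul (j : Fin 3) (m : MM K) : (X j.succ : TT K) • m = (X j : BB K) • m := by
  rw [smul_def, act_X_succ, Module.algebraMap_end_apply]

lemma C_smul (a : K) (m : MM K) : (C a : TT K) • m = a • m := by
  rw [smul_def, act_C, Module.algebraMap_end_apply]
  refine MM.ext fun i => ?_
  rw [MM.smul_apply, MM.smulK_apply, C_mul']

instance : IsScalarTower K (TT K) (MM K) := ⟨fun a p m => by
  rw [← C_mul', mul_smul, C_smul]⟩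

instance : IsScalarTower K (TT K)ᵐᵒᵖ (MM K) := ⟨fun a p m => by
  have h1 : (a • p) • m = (a • p.unop) • m := rfl
  have h2 : p • m = p.unop • m := rfl
  rw [h1, h2, smul_assoc]⟩

variable (K)

/-- the square zero extension -/
abbrev RR := TrivSqZeroExt (TT K) (MM K)

noncomputable example : CommRing (RR K) := inferInstance
noncomputable example : Algebra K (RR K) := inferInstance

end Q36.VN
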