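import Pool.Agent.Q36.VN.Kos
import Pool.Agent.Q36.VN.Ring

set_option autoImplicit false

/-!
Homogeneous elements and division by powers of variables.
-/

namespace Q36.VN

open MvPolynomial Finset

section

variable {K : Type*} [Field K] {σ : Type*}

/-- the polynomials all whose monomials have degree `m` -/
def HP (K : Type*) [Field K] (σ : Type*) (m : ℤ) : Submodule K (MvPolynomial σ K) where
  carrier := {p | ∀ a, coeff a p ≠ 0 → (a.degree : ℤ) = m}
  add_mem' := by
    intro p q hp hq a ha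
    by_cases h : coeff a p = 0
    · refine hq a fun h' => ha ?_
      rw [coeff_add, h, h', add_zero]
    · exact hp a h
  zero_mem' := fun a ha => absurd (coeff_zero a) ha
  smul_mem' := by
    intro c p hp a ha
    refine hp a fun h => ha ?_
    rw [coeff_smul, h, smul_zero]

lemma mem_HP {p : MvPolynomial σ K} {m : ℤ} :
    p ∈ HP K σ m ↔ ∀ a, coeff a p ≠ 0 → (a.degree : ℤ) = m := Iff.rfl

lemma HP_neg {p : MvPolynomial σ K} {m : ℤ} (hm : m < 0) (hp : p ∈ HP K σ m) : p = 0 := by
  ext a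
  rw [coeff_zero]
  by_contra h
  have := hp a h
  omega

lemma monomial_mem_HP (a : σ →₀ ℕ) (c : K) : monomial a c ∈ HP K σ a.degree := by
  classical
  intro b hb
  rw [coeff_monomial] at hb
  split_ifs at hb with h
  · rw [h]
  · exact absurd rfl hb

lemma X_pow_mul_mem_HP {p : MvPolynomial σ K} {m : ℤ} (hp : p ∈ HP K σ m) (h : σ) (s : ℕ) :
    X h ^ s * p ∈ HP K σ (m + s) := by
  classical
  intro a ha
  rw [X_pow_eq_monomial, coeff_monomial_mul'] at ha
  split_ifs at ha with h1
  · have h2 := hp (a - Finsupp.single h s) (fun h' => ha (by rw [h', mul_zero]))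
    have h3 : a = (a - Finsupp.single h s) + Finsupp.single h s := (tsub_add_cancel_of_le h1).symm
    rw [h3, map_add, Finsupp.degree_single]
    push_cast
    omega
  · exact absurd rfl ha

lemma mul_mem_HP {p q : MvPolynomial σ K} {m l : ℤ} (hp : p ∈ HP K σ m) (hq : q ∈ HP K σ l) :
    p * q ∈ HP K σ (m + l) := by
  classical
  intro a ha
  rw [coeff_mul] at ha
  obtain ⟨⟨b, c⟩, hbc, h⟩ := exists_ne_zero_of_sum_ne_zero ha
  rw [HasAntidiagonal.mem_antidiagonal] at hbc
  have h1 := hp b (left_ne_zero_of_mul h)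
  have h2 := hq c (right_ne_zero_of_mul h)
  simp only at hbc
  rw [← hbc, map_add]
  push_cast
  omega

/-- division by `X h ^ s` -/
noncomputable def Dv (s : ℕ) (h : σ) : MvPolynomial σ K →+ MvPolynomial σ K where
  toFun p := p.divMonomial (Finsupp.single h s)
  map_zero' := zero_divMonomial _
  map_add' _ _ := add_divMonomial _ _ _

lemma coeff_Dv (s : ℕ) (h : σ) (p : MvPolynomial σ K) (a : σ →₀ ℕ) :
    coeff a (Dv s h p) = coeff (Finsupp.single h s + a) p := coeff_divMonomial _ _ _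

lemma Dv_X_pow_mul (s : ℕ) (h : σ) (p : MvPolynomial σ K) : Dv s h (X h ^ s * p) = p := by
  rw [X_pow_eq_monomial]
  exact divMonomial_monomial_mul _ _

lemma Dv_X_pow_mul_ne (s : ℕ) {b h : σ} (hb : b ≠ h) (p : MvPolynomial σ K) (u : ℕ) :
    Dv s h (X b ^ u * p) = X b ^ u * Dv s h p := by
  classical
  ext a
  rw [coeff_Dv, X_pow_eq_monomial, coeff_monomial_mul', coeff_monomial_mul', coeff_Dv]
  have h1 : Finsupp.single b u ≤ Finsupp.single h s + a ↔ Finsupp.single b u ≤ a := by
    rw [Finsupp.single_le_iff, Finsupp.single_le_iff, Finsupp.add_apply,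
      Finsupp.single_eq_of_ne hb, zero_add]
  by_cases h2 : Finsupp.single b u ≤ a
  · rw [if_pos (h1.2 h2), if_pos h2, add_tsub_assoc_of_le h2]
  · rw [if_neg (fun h => h2 (h1.1 h)), if_neg h2]

lemma Dv_comm (s : ℕ) (h h' : σ) (p : MvPolynomial σ K) :
    Dv s h (Dv s h' p) = Dv s h' (Dv s h p) := by
  ext a
  simp only [coeff_Dv]
  congr 1
  abel

lemma Dv_mem_HP {p : MvPolynomial σ K} {m : ℤ} (hp : p ∈ HP K σ m) (s : ℕ) (h : σ) :
    Dv s h p ∈ HP K σ (m - s) := by
  intro a ha
  rw [coeff_Dv] at ha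
  have := hp _ ha
  rw [map_add, Finsupp.degree_single] at this
  push_cast at this
  omega

lemma eq_zero_of_Dv [Fintype σ] {p : MvPolynomial σ K} {m : ℤ} (hp : p ∈ HP K σ m) {s : ℕ}
    (hs : (Fintype.card σ : ℤ) * (s - 1) < m) (h0 : ∀ h, Dv s h p = 0) : p = 0 := by
  classical
  ext a
  rw [coeff_zero]
  by_contra ha
  have h1 := hp a ha
  have h2 : ∀ h, (a h : ℤ) ≤ s - 1 := by
    intro h
    by_contra h3
    have h4 : s ≤ a h := by omega
    have h5 := coeff_Dv s h p (a - Finsupp.single h s)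
    rw [h0, coeff_zero, add_tsub_cancel_of_le (Finsupp.single_le_iff.2 h4)] at h5
    exact ha h5.symm
  have h3 : (a.degree : ℤ) ≤ ∑ _h : σ, ((s : ℤ) - 1) := by
    rw [Finsupp.degree_eq_sum]
    push_cast
    exact sum_le_sum fun h _ => h2 h
  rw [sum_const, card_univ, nsmul_eq_mul] at h3
  omega

/-- cancellation of a power of a variable -/
lemma mem_HP_of_X_pow_mul {p : MvPolynomial σ K} {m : ℤ} {h : σ} {k : ℕ}
    (hp : X h ^ k * p ∈ HP K σ m) : p ∈ HP K σ (m - k) := by
  have := Dv_mem_HP hp k h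
  rwa [Dv_X_pow_mul] at this

end

variable {K : Type*} [Field K]

/-- the elements of the module whose coordinates are homogeneous of degree `m` -/
def HM (K : Type*) [Field K] (m : ℤ) : Submodule K (MM K) where
  carrier := {w | ∀ i, w i ∈ HP K (Fin 3) m}
  add_mem' := fun hp hq i => Submodule.add_mem _ (hp i) (hq i)
  zero_mem' := fun _ => Submodule.zero_mem _
  smul_mem' := fun c _ hp i => Submodule.smul_mem _ c (hp i)

lemma mem_HM {w : MM K} {m : ℤ} : w ∈ HM K m ↔ ∀ i, w i ∈ HP K (Fin 3) m := Iff.rfl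

lemma X_mul_mem_HP {p : BB K} {m : ℤ} (hp : p ∈ HP K (Fin 3) m) (h : Fin 3) :
    X h * p ∈ HP K (Fin 3) (m + 1) := by
  have := X_pow_mul_mem_HP hp h 1
  rwa [pow_one] at this

lemma xm_mem_HM {w : MM K} {m : ℤ} (hw : w ∈ HM K m) : xm w ∈ HM K (m + 1) := by
  have h2 : ∀ (c : K) (j : Fin 3) (i : Fin 5), C c * (X j * w i) ∈ HP K (Fin 3) (m + 1) := by
    intro c j i
    rw [C_mul']
    exact Submodule.smul_mem _ _ (X_mul_mem_HP (hw i) j)
  have e2 : (2 : BB K) = C 2 := (map_ofNat C 2).symm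
  intro i
  rw [xm_apply]
  fin_cases i
  · have : 2 * X 1 * w 3 = C 2 * (X 1 * w 3) := by rw [e2]; ring
    simpa [this] using h2 2 1 3
  · have : -X 0 * w 3 + X 1 * w 4 = C (-1) * (X 0 * w 3) + C 1 * (X 1 * w 4) := by
      simp
    have h3 := Submodule.add_mem _ (h2 (-1) 0 3) (h2 1 1 4)
    rw [← this] at h3
    exact h3
  · have : -2 * X 0 * w 4 = C (-2) * (X 0 * w 4) := by rw [map_neg, ← e2]; ring
    have h3 := h2 (-2) 0 4
    rw [← this] at h3
    exact h3
  · have h3 := Submodule.add_mem _ (X_mul_mem_HP (hw 0) 0) (X_mul_mem_HP (hw 1) 1)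
    exact h3
  · have h3 := Submodule.add_mem _ (X_mul_mem_HP (hw 1) 0) (X_mul_mem_HP (hw 2) 1)
    exact h3

lemma X_smul_mem_HM {w : MM K} {m : ℤ} (hw : w ∈ HM K m) (h : Fin 4) :
    (X h : TT K) • w ∈ HM K (m + 1) := by
  refine Fin.cases ?_ (fun j => ?_) h
  · rw [X0_smul]; exact xm_mem_HM hw
  · rw [Xs_smul]
    intro i
    exact X_mul_mem_HP (hw i) j

lemma X_pow_smul_mem_HM {w : MM K} {m : ℤ} (hw : w ∈ HM K m) (h : Fin 4) (s : ℕ) :
    (X h ^ s : TT K) • w ∈ HM K (m + s) := by
  induction s with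
  | zero => simpa using hw
  | succ s ih =>
    rw [pow_succ', mul_smul]
    have := X_smul_mem_HM ih h
    rw [Nat.cast_add, Nat.cast_one, ← add_assoc]
    exact this

lemma smul_mem_HM {w : MM K} {m l : ℤ} {p : TT K} (hp : p ∈ HP K (Fin 4) l) (hw : w ∈ HM K m) :
    p • w ∈ HM K (l + m) := by
  classical
  have key : ∀ (a : Fin 4 →₀ ℕ) (m : ℤ) (w : MM K), w ∈ HM K m →
      (monomial a (1 : K) : TT K) • w ∈ HM K (a.degree + m) := by
    intro a
    induction a using Finsupp.induction_linear with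
    | zero => intro m w hw; simpa using hw
    | add a b ha hb =>
      intro m w hw
      have e : (monomial (a + b) (1 : K) : TT K) = monomial a 1 * monomial b 1 := by
        rw [monomial_mul, mul_one]
      rw [e, mul_smul, map_add]
      have := ha _ _ (hb _ _ hw)
      push_cast
      rwa [add_assoc]
    | single h s =>
      intro m w hw
      rw [← X_pow_eq_monomial, Finsupp.degree_single, add_comm]
      exact X_pow_smul_mem_HM hw h s
  rw [p.as_sum, sum_smul]
  refine Submodule.sum_mem _ fun a ha => ?_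
  have h1 : (a.degree : ℤ) = l := hp a (mem_support_iff.1 ha)
  have e : (monomial a (coeff a p) : TT K) = (coeff a p) • monomial a (1 : K) := by
    rw [smul_monomial, smul_eq_mul, mul_one]
  rw [e, smul_assoc]
  have := key a m w hw
  rw [h1] at this
  exact Submodule.smul_mem _ _ this

end Q36.VN
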