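import Pool.Agent.Q36.VN.Gen

set_option autoImplicit false

/-!
The regularity of the powers of `t`.
-/

namespace Q36.VN

open MvPolynomial Finset TrivSqZeroExt

variable {K : Type*} [Field K]

/-- the power of `t` -/
noncomputable def tk (K : Type*) [Field K] (k : ℕ) : RR K := ff K 3 ^ k

lemma tk_eq (k : ℕ) : tk K k = inl (X 3 ^ k) :=
  (map_pow (inlHom (TT K) (MM K)) (X 3) k).symm

lemma mul_tk_fst (r : RR K) (k : ℕ) : (r * tk K k).fst = X 3 ^ k * r.fst := by
  rw [tk_eq, fst_mul, fst_inl, mul_comm]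

lemma mul_tk_snd (r : RR K) (k : ℕ) (i : Fin 5) : (r * tk K k).snd i = X 2 ^ k * r.snd i := by
  rw [tk_eq, snd_mul, snd_inl, fst_inl, smul_zero, zero_add, op_smul_eq_smul]
  have := Xs_pow_smul (2 : Fin 3) k r.snd
  have e : (Fin.succ (2 : Fin 3)) = (3 : Fin 4) := rfl
  rw [e] at this
  rw [this, MM.smul_apply]

lemma mul_tk_eq_zero {r : RR K} {k : ℕ} (h : r * tk K k = 0) : r = 0 := by
  refine TrivSqZeroExt.ext ?_ (MM.ext fun i => ?_)
  · have h1 := mul_tk_fst r k
    rw [h, fst_zero] at h1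
    rw [fst_zero]
    rcases mul_eq_zero.1 h1.symm with h2 | h2
    · exact absurd h2 (pow_ne_zero _ (X_ne_zero _))
    · exact h2
  · have h1 := mul_tk_snd r k i
    rw [h, snd_zero, MM.zero_apply] at h1
    rw [snd_zero, MM.zero_apply]
    rcases mul_eq_zero.1 h1.symm with h2 | h2
    · exact absurd h2 (pow_ne_zero _ (X_ne_zero _))
    · exact h2

lemma mul_tk_mem {r : RR K} {m : ℤ} (k : ℕ) :
    r * tk K k ∈ piece (GA K) m ↔ r ∈ piece (GA K) (m - k) := by
  rw [mem_piece, mem_piece, mul_tk_fst, mem_HM, mem_HM]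
  constructor
  · rintro ⟨h1, h2⟩
    refine ⟨mem_HP_of_X_pow_mul h1, fun i => ?_⟩
    have h3 := h2 i
    rw [mul_tk_snd] at h3
    have h4 := mem_HP_of_X_pow_mul h3
    rwa [sub_right_comm] at h4
  · rintro ⟨h1, h2⟩
    refine ⟨?_, fun i => ?_⟩
    · have h3 := X_pow_mul_mem_HP h1 3 k
      rwa [sub_add_cancel] at h3
    · rw [mul_tk_snd]
      have h3 := X_pow_mul_mem_HP (h2 i) 2 k
      have e : m - k - 1 + k = m - 1 := by ring
      rwa [e] at h3

lemma koszul_mul (s : ℕ) (c : Finset (Fin 4) → RR K) (g : RR K) (B : Finset (Fin 4)) :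
    koszul (ff K) s (fun A => c A * g) B = koszul (ff K) s c B * g := by
  unfold koszul
  rw [sum_mul]
  exact sum_congr rfl fun b _ => by ring

lemma sum_one_card (A : Finset (Fin 4)) : ∑ _a ∈ A, (((1 : ℕ) : ℤ)) = A.card := by
  rw [sum_const, nsmul_eq_mul, Nat.cast_one, mul_one]

theorem lczero (k : ℕ) (i d : ℤ) (hid : (k : ℤ) + 1 < d + i) :
    LCZero (GA K) (Ik K k) (ff K) (fun _ => 1) i d := by
  intro s c hc hk
  have hex : ∀ A, ∃ r, r * tk K k = c A := by
    intro A
    have := (hc A).1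
    rw [Ik, Ideal.mem_span_singleton'] at this
    exact this
  choose c' hc' using hex
  have h0 : ∀ A, (A.card : ℤ) ≠ i → c' A = 0 := by
    intro A hA
    refine mul_tk_eq_zero (k := k) ?_
    rw [hc' A, (hc A).2.1 hA]
  have h1 : ∀ A, c' A ∈ piece (GA K) ((d - k) + s * A.card) := by
    intro A
    have h2 := (hc A).2.2
    rw [sum_one_card, ← hc' A, mul_tk_mem] at h2
    have e : d + (s : ℤ) * A.card - k = (d - k) + s * A.card := by ring
    rwa [e] at h2
  have h2 : ∀ B, koszul (ff K) s c' B = 0 := by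
    intro B
    refine mul_tk_eq_zero (k := k) ?_
    rw [← koszul_mul]
    have e : (fun A => c' A * tk K k) = c := funext hc'
    rw [e, hk B]
  -- the two parts
  have h3 : ∀ A, (transition (ff K) 5 c' A).fst ∈ HP K (Fin 4) ((d - k) + (s + 5 : ℕ) * A.card) := by
    intro A
    rw [transition_fst]
    have := mul_mem_HP (prod_X_mem_HP (K := K) A 5) (mem_piece.1 (h1 A)).1
    have e : ((d - k) + ((s + 5 : ℕ) : ℤ) * A.card) =
        ((5 : ℕ) : ℤ) * A.card + ((d - k) + s * A.card) := by push_cast; ring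
    rwa [e]
  have h4 : ∀ A, (transition (ff K) 5 c' A).snd ∈ HM K ((d - k) + (s + 5 : ℕ) * A.card - 1) := by
    intro A
    rw [transition_snd]
    have := smul_mem_HM (prod_X_mem_HP (K := K) A 5) (mem_piece.1 (h1 A)).2
    have e : ((d - k) + ((s + 5 : ℕ) : ℤ) * A.card - 1) =
        ((5 : ℕ) : ℤ) * A.card + ((d - k) + s * A.card - 1) := by push_cast; ring
    rwa [e]
  obtain ⟨b1, hb1, hb1', hb1''⟩ := van_T (s + 5) i (d - k) (by omega)
    (fun A => (transition (ff K) 5 c' A).fst)
    (fun A hA => by rw [transition_fst, h0 A hA, fst_zero, mul_zero]) h3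
    (fun B => by
      have := kz_transition (fun b => (X b : TT K)) s 5 (fun A => (c' A).fst) B
      rw [← koszul_fst, h2 B, fst_zero, smul_zero] at this
      rw [← this]
      congr 1
      funext A
      rw [transition_fst, smul_eq_mul])
  obtain ⟨b2, hb2, hb2', hb2''⟩ := van_M (s + 5) (by omega) i (d - k) (by omega)
    (fun A => (transition (ff K) 5 c' A).snd)
    (fun A hA => by rw [transition_snd, h0 A hA, snd_zero, smul_zero])
    (fun A hA => by
      rw [transition_snd, ← mul_prod_erase A _ hA, mul_pow, mul_comm, mul_smul,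
        X0_pow_smul (le_refl 5), smul_zero]) h4
    (fun B => by
      have := kz_transition (fun b => (X b : TT K)) s 5 (fun A => (c' A).snd) B
      rw [← koszul_snd, h2 B, snd_zero, smul_zero] at this
      rw [← this]
      congr 1
      funext A
      rw [transition_snd])
  refine ⟨5, fun A => (inl (b1 A) + inr (b2 A)) * tk K k, ?_, fun B => ?_⟩
  · intro A
    refine ⟨?_, fun hA => ?_, ?_⟩
    · rw [Ik, Ideal.mem_span_singleton']
      exact ⟨_, rfl⟩
    · change (inl (b1 A) + inr (b2 A)) * tk K k = 0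
      rw [hb1 A hA, hb2 A hA, inl_zero, inr_zero, add_zero, zero_mul]
    · rw [mul_tk_mem, mem_piece, sum_one_card]
      have e : (d + ((s + 5 : ℕ) : ℤ) * A.card - k) = (d - k) + ((s + 5 : ℕ) : ℤ) * A.card := by
        ring
      rw [e, fst_add, fst_inl, fst_inr, add_zero, snd_add, snd_inl, snd_inr, zero_add]
      exact ⟨hb1' A, hb2' A⟩
  · rw [koszul_mul]
    have e1 : koszul (ff K) (s + 5) (fun A => inl (b1 A) + inr (b2 A)) B =
        transition (ff K) 5 c' B := by
      refine TrivSqZeroExt.ext ?_ ?_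
      · rw [koszul_fst]
        have e : (fun T => (inl (b1 T) + inr (b2 T) : RR K).fst) = b1 := by
          funext T
          rw [fst_add, fst_inl, fst_inr, add_zero]
        rw [e]
        exact hb1'' B
      · rw [koszul_snd]
        have e : (fun T => (inl (b1 T) + inr (b2 T) : RR K).snd) = b2 := by
          funext T
          rw [snd_add, snd_inl, snd_inr, zero_add]
        rw [e]
        exact hb2'' B
    rw [e1]
    unfold transition
    rw [mul_assoc, hc' B]

theorem regularity_le (k : ℕ) :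
    regularity (GA K) (Ik K k) (ff K) (fun _ => 1) ≤ ((((k : ℤ) + 1 : ℤ) : ℝ) : EReal) := by
  refine sSup_le ?_
  rintro _ ⟨i, d, h, rfl⟩
  have h1 : d + i ≤ (k : ℤ) + 1 := by
    by_contra h2
    exact h (lczero k i d (by omega))
  exact_mod_cast h1

end Q36.VN
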