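import Pool.Agent.Q36.VN.Reg

set_option autoImplicit false

/-!
The v-number of the powers of `t`.
-/

namespace Q36.VN

open MvPolynomial Finset TrivSqZeroExt

variable {K : Type*} [Field K]

lemma X_dvd_iff {σ : Type*} {i : σ} {p : MvPolynomial σ K} :
    X i ∣ p ↔ ∀ a : σ →₀ ℕ, a i = 0 → coeff a p = 0 := by
  classical
  constructor
  · rintro ⟨q, rfl⟩ a ha
    rw [coeff_X_mul', if_neg]
    rw [Finsupp.mem_support_iff, not_not]
    exact ha
  · intro h
    rw [X_dvd_iff_modMonomial_eq_zero]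
    ext a
    rw [coeff_zero]
    by_cases h1 : Finsupp.single i 1 ≤ a
    · exact coeff_modMonomial_of_le _ h1
    · rw [coeff_modMonomial_of_not_le _ h1]
      rw [Finsupp.single_le_iff, not_le] at h1
      exact h a (by omega)

lemma not_X_dvd_X {σ : Type*} {i j : σ} (h : i ≠ j) : ¬ (X i : MvPolynomial σ K) ∣ X j := by
  rw [X_dvd_X]
  exact h

lemma X_dvd_of_mul {σ : Type*} {i j : σ} (h : i ≠ j) {k : ℕ} {p : MvPolynomial σ K}
    (hp : X i ∣ X j ^ k * p) : X i ∣ p := by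
  rcases (X_prime (R := K) (i := i)).dvd_or_dvd hp with h1 | h1
  · exact absurd ((X_prime (R := K) (i := i)).dvd_of_dvd_pow h1) (not_X_dvd_X h)
  · exact h1

lemma X_dvd_of_two_mul (h2 : (2 : K) ≠ 0) {σ : Type*} {i : σ} {p : MvPolynomial σ K}
    (hp : X i ∣ 2 * p) : X i ∣ p := by
  have h3 : (2 : MvPolynomial σ K) = C 2 := (map_ofNat C 2).symm
  rw [h3] at hp
  have h4 := dvd_mul_of_dvd_right hp (C (2⁻¹ : K))
  rwa [← mul_assoc, ← C_mul, inv_mul_cancel₀ h2, C_1, one_mul] at h4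

/-- small homogeneous elements killed by `x` modulo `t` are divisible by `t` -/
lemma small_kernel (h2 : (2 : K) ≠ 0) {δ : ℤ} (hδ : δ ≤ 1) {w : MM K} (hw : w ∈ HM K δ)
    (hx : ∀ i, (X 2 : BB K) ∣ xm w i) (i : Fin 5) : (X 2 : BB K) ∣ w i := by
  classical
  have e0 := hx 0
  have e2 := hx 2
  have e3 := hx 3
  have e4 := hx 4
  rw [xm_apply] at e0 e2 e3 e4
  simp only [Matrix.cons_val] at e0 e2 e3 e4
  have d3 : (X 2 : BB K) ∣ w 3 := by
    have h3 : (2 * X 1 * w 3 : BB K) = 2 * (X 1 ^ 1 * w 3) := by ring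
    rw [h3] at e0
    exact X_dvd_of_mul (by decide) (X_dvd_of_two_mul h2 e0)
  have d4 : (X 2 : BB K) ∣ w 4 := by
    have h3 : (-2 * X 0 * w 4 : BB K) = -(2 * (X 0 ^ 1 * w 4)) := by ring
    rw [h3, dvd_neg] at e2
    exact X_dvd_of_mul (by decide) (X_dvd_of_two_mul h2 e2)
  have key : (X 2 : BB K) ∣ X 0 ^ 2 * w 0 - X 1 ^ 2 * w 2 := by
    have h3 : (X 0 ^ 2 * w 0 - X 1 ^ 2 * w 2 : BB K) =
        X 0 * (X 0 * w 0 + X 1 * w 1) - X 1 * (X 0 * w 1 + X 1 * w 2) := by ring
    rw [h3]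
    exact dvd_sub (dvd_mul_of_dvd_right e3 _) (dvd_mul_of_dvd_right e4 _)
  have hcoef : ∀ a : Fin 3 →₀ ℕ, a 2 = 0 → coeff a (X 0 ^ 2 * w 0) = 0 ∧
      coeff a (X 1 ^ 2 * w 2) = 0 := by
    intro a ha
    have h3 := X_dvd_iff.1 key a ha
    rw [coeff_sub, sub_eq_zero] at h3
    by_cases h4 : coeff a (X 0 ^ 2 * w 0) = 0
    · exact ⟨h4, by rw [← h3, h4]⟩
    · exfalso
      have h5 := h4
      rw [h3] at h5
      have h6 : (a.degree : ℤ) = δ + 2 := by
        have := X_pow_mul_mem_HP (hw 0) 0 2 a h4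
        exact_mod_cast this
      have h7 : Finsupp.single 0 2 ≤ a := by
        by_contra h8
        rw [X_pow_eq_monomial, coeff_monomial_mul', if_neg h8] at h4
        exact h4 rfl
      have h9 : Finsupp.single 1 2 ≤ a := by
        by_contra h8
        rw [X_pow_eq_monomial, coeff_monomial_mul', if_neg h8] at h5
        exact h5 rfl
      rw [Finsupp.single_le_iff] at h7 h9
      have h10 : a.degree = a 0 + a 1 + a 2 := by
        rw [Finsupp.degree_eq_sum, Fin.sum_univ_three]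
      omega
  have d0 : (X 2 : BB K) ∣ w 0 :=
    X_dvd_of_mul (i := 2) (j := 0) (k := 2) (by decide) (X_dvd_iff.2 fun a ha => (hcoef a ha).1)
  have d2 : (X 2 : BB K) ∣ w 2 :=
    X_dvd_of_mul (i := 2) (j := 1) (k := 2) (by decide) (X_dvd_iff.2 fun a ha => (hcoef a ha).2)
  have d1 : (X 2 : BB K) ∣ w 1 := by
    have h3 : (X 2 : BB K) ∣ X 1 ^ 1 * w 1 := by
      rw [pow_one]
      exact (dvd_add_right (dvd_mul_of_dvd_right d0 _)).1 e3
    exact X_dvd_of_mul (by decide) h3
  fin_cases i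
  · exact d0
  · exact d1
  · exact d2
  · exact d3
  · exact d4

/-- small polynomials which act as zero modulo `t` are divisible by `t` -/
lemma small_action {l : ℤ} (hl : l ≤ 2) {p : TT K} (hp : p ∈ HP K (Fin 4) l)
    (h : ∀ w : MM K, ∀ i, (X 2 : BB K) ∣ (p • w) i) : (X 3 : TT K) ∣ p := by
  set q := finSuccEquiv K 3 p with hq
  have hcoef : ∀ j, 3 ≤ j → q.coeff j = 0 := by
    intro j hj
    ext a
    rw [coeff_zero]
    by_contra h1
    rw [hq, finSuccEquiv_coeff_coeff] at h1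
    have h2 := hp _ h1
    have h3 : j ≤ (Finsupp.cons j a).degree := by
      rw [Finsupp.degree_eq_sum, Fin.sum_univ_succ, Finsupp.cons_zero]
      exact Nat.le_add_right _ _
    omega
  have hdeg : q.natDegree < 3 := by
    by_contra h1
    rw [not_lt] at h1
    have h2 : q ≠ 0 := by
      intro h3
      rw [h3, Polynomial.natDegree_zero] at h1
      omega
    exact (Polynomial.leadingCoeff_ne_zero.2 h2) (hcoef _ h1)
  have hact : ∀ w : MM K, p • w = q.coeff 0 • w + q.coeff 1 • xm w + q.coeff 2 • xm (xm w) := by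
    intro w
    rw [smul_def, act_apply, ← hq, Polynomial.aeval_eq_sum_range' hdeg, sum_range_succ,
      sum_range_succ, sum_range_one, LinearMap.add_apply, LinearMap.add_apply,
      LinearMap.smul_apply, LinearMap.smul_apply, LinearMap.smul_apply, pow_zero, pow_one,
      pow_two]
    rfl
  have h3 := h (ev K 3)
  rw [hact] at h3
  have c1 := h3 1
  have c3 := h3 3
  have c4 := h3 4
  simp only [MM.add_apply, MM.smul_apply, xm_apply, ev, Matrix.cons_val] at c1 c3 c4
  simp at c1 c3 c4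
  have hb : (X 2 : BB K) ∣ q.coeff 1 := by
    have e : (q.coeff 1 * X 0 : BB K) = X 0 ^ 1 * q.coeff 1 := by ring
    rw [e] at c1
    exact X_dvd_of_mul (by decide) c1
  have hc' : (X 2 : BB K) ∣ q.coeff 2 := by
    have e : (q.coeff 2 * (X 0 * X 0) : BB K) = X 0 ^ 2 * q.coeff 2 := by ring
    rw [e] at c4
    exact X_dvd_of_mul (by decide) c4
  have ha : (X 2 : BB K) ∣ q.coeff 0 :=
    (dvd_add_left (dvd_mul_of_dvd_left hc' _)).1 c3
  have hdvd : Polynomial.C (X 2 : BB K) ∣ q := by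
    rw [Polynomial.C_dvd_iff_dvd_coeff]
    intro j
    rcases Nat.lt_or_ge j 3 with hj | hj
    · interval_cases j
      · exact ha
      · exact hb
      · exact hc'
    · rw [hcoef j hj]
      exact dvd_zero _
  have e3 : finSuccEquiv K 3 (X 3) = Polynomial.C (X 2 : BB K) :=
    finSuccEquiv_X_succ (j := (2 : Fin 3))
  rw [← e3, hq] at hdvd
  have := map_dvd (finSuccEquiv K 3).symm hdvd
  rwa [AlgEquiv.symm_apply_apply, AlgEquiv.symm_apply_apply] at this

end Q36.VN
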