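import Pool.Agent.Q36.VN.Defs
import Pool.Agent.Q36.VN.Poly

set_option autoImplicit false

/-!
Vanishing of the local cohomology in high degrees.
-/

namespace Q36.VN

open MvPolynomial Finset TrivSqZeroExt

variable {K : Type*} [Field K]

lemma filter_erase_lt {n : ℕ} (b : Fin n) (B : Finset (Fin n)) :
    (B.erase b).filter (· < b) = B.filter (· < b) := by
  ext x
  simp only [mem_filter, mem_erase]
  constructor
  · rintro ⟨⟨_, h⟩, h'⟩; exact ⟨h, h'⟩
  · rintro ⟨h, h'⟩; exact ⟨⟨h'.ne, h⟩, h'⟩

/-- the action of `x` on the module is nilpotent -/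
lemma X0_pow_smul {u : ℕ} (hu : 5 ≤ u) (w : MM K) : (X 0 ^ u : TT K) • w = 0 := by
  obtain ⟨v, rfl⟩ := Nat.exists_eq_add_of_le hu
  rw [pow_add, mul_comm, mul_smul]
  have : (X 0 ^ 5 : TT K) • w = 0 := by
    rw [smul_def, map_pow, act_X_zero, xm_pow_five, LinearMap.zero_apply]
  rw [this, smul_zero]

lemma Xs_pow_smul (j : Fin 3) (u : ℕ) (w : MM K) :
    ((X j.succ : TT K) ^ u) • w = ((X j : BB K) ^ u) • w := by
  induction u with
  | zero => simp
  | succ u ih => rw [pow_succ', mul_smul, ih, Xs_smul, pow_succ', mul_smul]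

/-- division on the module -/
noncomputable def DM (s : ℕ) (j : Fin 3) : MM K →+ MM K where
  toFun w := fun i => Dv s j (w i)
  map_zero' := MM.ext fun _ => map_zero _
  map_add' _ _ := MM.ext fun _ => map_add _ _ _

lemma DM_apply (s : ℕ) (j : Fin 3) (w : MM K) (i : Fin 5) : DM s j w i = Dv s j (w i) := rfl

/-- division on the module, indexed by four elements -/
noncomputable def DM4 (s : ℕ) (h : Fin 4) : MM K →+ MM K :=
  Fin.cases (motive := fun _ => MM K →+ MM K) 0 (fun j => DM s j) h

lemma DM4_succ (s : ℕ) (j : Fin 3) : (DM4 s j.succ : MM K →+ MM K) = DM s j := rfl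

lemma kz_transition {n : ℕ} {A : Type*} [CommRing A] {W : Type*} [AddCommGroup W] [Module A W]
    (f : Fin n → A) (s u : ℕ) (c : Finset (Fin n) → W) (B : Finset (Fin n)) :
    kz (fun b => f b ^ (s + u)) (fun T => (∏ a ∈ T, f a) ^ u • c T) B =
      (∏ a ∈ B, f a) ^ u • kz (fun b => f b ^ s) c B := by
  unfold kz
  rw [smul_sum]
  refine sum_congr rfl fun b hb => ?_
  rw [smul_smul, smul_smul, ← mul_prod_erase B f hb]
  congr 1
  simp only [mul_pow, pow_add]
  ring

/-- the variables as elements of the ring -/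
noncomputable def ff (K : Type*) [Field K] (j : Fin 4) : RR K := inl (X j)

lemma koszul_fst (s : ℕ) (c : Finset (Fin 4) → RR K) (B : Finset (Fin 4)) :
    (koszul (ff K) s c B).fst = kz (fun b => (X b ^ s : TT K)) (fun T => (c T).fst) B := by
  unfold koszul kz
  rw [fst_sum]
  refine sum_congr rfl fun b _ => ?_
  rw [fst_mul, fst_mul, fst_pow, fst_pow, fst_neg, fst_one, ff, fst_inl, smul_eq_mul, sg,
    filter_erase_lt]
  ring

lemma neg_one_pow_snd (k : ℕ) : ((-1 : RR K) ^ k).snd = 0 := by
  rcases neg_one_pow_eq_or (RR K) k with h | h <;> rw [h] <;> simp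

lemma inl_pow_snd (p : TT K) (k : ℕ) : ((inl p : RR K) ^ k).snd = 0 := by
  have : (inl p : RR K) ^ k = inl (p ^ k) := (map_pow (inlHom (TT K) (MM K)) p k).symm
  rw [this, snd_inl]

lemma koszul_snd (s : ℕ) (c : Finset (Fin 4) → RR K) (B : Finset (Fin 4)) :
    (koszul (ff K) s c B).snd = kz (fun b => (X b ^ s : TT K)) (fun T => (c T).snd) B := by
  unfold koszul kz
  rw [snd_sum]
  refine sum_congr rfl fun b _ => ?_
  rw [snd_mul, snd_mul, neg_one_pow_snd, ff, inl_pow_snd, smul_zero, add_zero, smul_zero, add_zero,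
    fst_pow, fst_pow, fst_neg, fst_one, fst_inl, sg, filter_erase_lt, smul_smul]

lemma transition_fst (u : ℕ) (c : Finset (Fin 4) → RR K) (B : Finset (Fin 4)) :
    (transition (ff K) u c B).fst = (∏ a ∈ B, (X a : TT K)) ^ u * (c B).fst := by
  unfold transition
  have : (∏ a ∈ B, ff K a) = inl (∏ a ∈ B, (X a : TT K)) := by
    unfold ff
    exact (map_prod (inlHom (TT K) (MM K)) _ _).symm
  rw [this, fst_mul, fst_pow, fst_inl]

lemma transition_snd (u : ℕ) (c : Finset (Fin 4) → RR K) (B : Finset (Fin 4)) :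
    (transition (ff K) u c B).snd = (∏ a ∈ B, (X a : TT K)) ^ u • (c B).snd := by
  unfold transition
  have : (∏ a ∈ B, ff K a) = inl (∏ a ∈ B, (X a : TT K)) := by
    unfold ff
    exact (map_prod (inlHom (TT K) (MM K)) _ _).symm
  rw [this, snd_mul, inl_pow_snd, smul_zero, add_zero, fst_pow, fst_inl]

lemma prod_X_mem_HP (B : Finset (Fin 4)) (u : ℕ) :
    (∏ a ∈ B, (X a : TT K)) ^ u ∈ HP K (Fin 4) (u * B.card) := by
  have h1 : (∏ a ∈ B, (X a : TT K)) ∈ HP K (Fin 4) B.card := by
    induction B using Finset.induction_on with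
    | empty =>
      rw [prod_empty, card_empty]
      exact monomial_mem_HP 0 (1 : K)
    | insert a B ha ih =>
      rw [prod_insert ha, card_insert_of_notMem ha]
      have := X_pow_mul_mem_HP ih a 1
      rw [pow_one] at this
      exact_mod_cast this
  induction u with
  | zero =>
    rw [pow_zero]
    have := monomial_mem_HP (K := K) (0 : Fin 4 →₀ ℕ) (1 : K)
    simpa using this
  | succ u ih =>
    rw [pow_succ]
    have := mul_mem_HP ih h1
    have e : ((u + 1 : ℕ) : ℤ) * B.card = u * B.card + B.card := by push_cast; ring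
    rw [e]
    exact this

/-- the allowed values of a cochain -/
noncomputable def ST (K : Type*) [Field K] (s : ℕ) (i d : ℤ) (A : Finset (Fin 4)) : AddSubgroup (TT K) :=
  (if (A.card : ℤ) = i then HP K (Fin 4) (d + s * A.card) else ⊥).toAddSubgroup

/-- the allowed values of a cochain -/
noncomputable def SM (K : Type*) [Field K] (s : ℕ) (i d : ℤ) (A : Finset (Fin 4)) : AddSubgroup (MM K) :=
  (if (A.card : ℤ) = i ∧ 0 ∉ A then HM K (d + s * A.card - 1) else ⊥).toAddSubgroup

/-- the part in the polynomial ring -/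
theorem van_T (s : ℕ) (i d : ℤ) (hid : 1 < d + i) (c : Finset (Fin 4) → TT K)
    (hc0 : ∀ A, (A.card : ℤ) ≠ i → c A = 0) (hc : ∀ A, c A ∈ HP K (Fin 4) (d + s * A.card))
    (hk : ∀ B, kz (fun b => (X b ^ s : TT K)) c B = 0) :
    ∃ b : Finset (Fin 4) → TT K, (∀ A, (A.card : ℤ) ≠ i - 1 → b A = 0) ∧
      (∀ A, b A ∈ HP K (Fin 4) (d + s * A.card)) ∧
      ∀ B, kz (fun b => (X b ^ s : TT K)) b B = c B := by
  have key : ∃ b : Finset (Fin 4) → TT K, (∀ B, b B ∈ ST K s (i - 1) d B) ∧
      ∀ B, kz (fun b => (X b ^ s : TT K)) b B = c B := by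
    refine kz_exact (fun b => (X b ^ s : TT K)) univ (fun h => Dv s h)
      (fun h _ w => by rw [smul_eq_mul]; exact Dv_X_pow_mul s h w)
      (fun h _ b hb w => by rw [smul_eq_mul, smul_eq_mul]; exact Dv_X_pow_mul_ne s hb w s)
      (fun h _ h' _ w => Dv_comm s h h' w) (ST K s i d) (ST K s (i - 1) d)
      ?_ ?_ ?_ c ?_ hk
    all_goals unfold ST
    · intro h _ B hB w hw
      rw [Submodule.mem_toAddSubgroup] at hw ⊢
      rw [card_insert_of_notMem hB] at hw
      split_ifs at hw with h1
      · rw [if_pos (by push_cast at h1; omega)]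
        have := Dv_mem_HP hw s h
        have e : d + (s : ℤ) * ((B.card + 1 : ℕ) : ℤ) - s = d + s * B.card := by push_cast; ring
        rwa [e] at this
      · rw [(Submodule.mem_bot K).1 hw, map_zero]; exact Submodule.zero_mem _
    · intro h _ B hB w hw
      rw [Submodule.mem_toAddSubgroup] at hw ⊢
      rw [card_insert_of_notMem hB]
      split_ifs at hw with h1
      · rw [if_pos (by push_cast; omega)]
        have := X_pow_mul_mem_HP hw h s
        have e : d + (s : ℤ) * ((B.card + 1 : ℕ) : ℤ) = d + s * B.card + s := by push_cast; ring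
        rw [e]
        exact this
      · rw [(Submodule.mem_bot K).1 hw, smul_zero]; exact Submodule.zero_mem _
    · intro B hB w hw hD
      rw [Submodule.mem_toAddSubgroup] at hw
      have hB' : B = univ := univ_subset_iff.1 hB
      subst hB'
      split_ifs at hw with h1
      · rw [card_univ, Fintype.card_fin] at h1 hw
        refine eq_zero_of_Dv hw (s := s) ?_ (fun h => hD h (mem_univ _))
        rw [Fintype.card_fin]
        push_cast at h1 ⊢
        omega
      · exact (Submodule.mem_bot K).1 hw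
    · intro A
      rw [Submodule.mem_toAddSubgroup]
      split_ifs with h1
      · exact hc A
      · rw [hc0 A h1]; exact Submodule.zero_mem _
  obtain ⟨b, hb, hb'⟩ := key
  unfold ST at hb
  refine ⟨b, fun A hA => ?_, fun A => ?_, hb'⟩
  · have := hb A
    rw [if_neg hA] at this
    exact this
  · have := hb A
    rw [Submodule.mem_toAddSubgroup] at this
    split_ifs at this
    · exact this
    · rw [(Submodule.mem_bot K).1 this]; exact Submodule.zero_mem _

/-- the part in the module -/
theorem van_M (s : ℕ) (hs : 5 ≤ s) (i d : ℤ) (hid : 1 < d + i) (c : Finset (Fin 4) → MM K)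
    (hc0 : ∀ A, (A.card : ℤ) ≠ i → c A = 0) (hc1 : ∀ A, 0 ∈ A → c A = 0)
    (hc : ∀ A, c A ∈ HM K (d + s * A.card - 1))
    (hk : ∀ B, kz (fun b => (X b ^ s : TT K)) c B = 0) :
    ∃ b : Finset (Fin 4) → MM K, (∀ A, (A.card : ℤ) ≠ i - 1 → b A = 0) ∧
      (∀ A, b A ∈ HM K (d + s * A.card - 1)) ∧
      ∀ B, kz (fun b => (X b ^ s : TT K)) b B = c B := by
  have key : ∃ b : Finset (Fin 4) → MM K, (∀ B, b B ∈ SM K s (i - 1) d B) ∧
      ∀ B, kz (fun b => (X b ^ s : TT K)) b B = c B := by
    refine kz_exact (fun b => (X b ^ s : TT K)) (univ.erase 0) (fun h => DM4 s h)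
      (fun h hh w => ?_) (fun h hh b hb w => ?_) (fun h hh h' hh' w => ?_)
      (SM K s i d) (SM K s (i - 1) d) ?_ ?_ ?_ c ?_ hk
    · obtain ⟨j, rfl⟩ := Fin.exists_succ_eq.2 (ne_of_mem_erase hh)
      rw [DM4_succ, Xs_pow_smul]
      exact MM.ext fun i => Dv_X_pow_mul s j (w i)
    · obtain ⟨j, rfl⟩ := Fin.exists_succ_eq.2 (ne_of_mem_erase hh)
      rw [DM4_succ]
      by_cases hb0 : b = 0
      · rw [hb0, X0_pow_smul hs, X0_pow_smul hs, map_zero]
      · obtain ⟨j', rfl⟩ := Fin.exists_succ_eq.2 hb0
        rw [Xs_pow_smul, Xs_pow_smul]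
        refine MM.ext fun i => ?_
        exact Dv_X_pow_mul_ne s (fun e => hb (by rw [e])) (w i) s
    · obtain ⟨j, rfl⟩ := Fin.exists_succ_eq.2 (ne_of_mem_erase hh)
      obtain ⟨j', rfl⟩ := Fin.exists_succ_eq.2 (ne_of_mem_erase hh')
      rw [DM4_succ, DM4_succ]
      exact MM.ext fun i => Dv_comm s j j' (w i)
    all_goals unfold SM
    · intro h hh B hB w hw
      have h0 : h ≠ 0 := ne_of_mem_erase hh
      rw [Submodule.mem_toAddSubgroup] at hw ⊢
      rw [card_insert_of_notMem hB] at hw
      split_ifs at hw with h1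
      · rw [if_pos ⟨by have := h1.1; push_cast at this; omega,
          fun h2 => h1.2 (mem_insert_of_mem h2)⟩]
        obtain ⟨j, rfl⟩ := Fin.exists_succ_eq.2 h0
        rw [DM4_succ]
        intro i
        have := Dv_mem_HP (hw i) s j
        have e : d + (s : ℤ) * ((B.card + 1 : ℕ) : ℤ) - 1 - s = d + s * B.card - 1 := by
          push_cast; ring
        rwa [e] at this
      · rw [(Submodule.mem_bot K).1 hw, map_zero]; exact Submodule.zero_mem _
    · intro h hh B hB w hw
      have h0 : h ≠ 0 := ne_of_mem_erase hh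
      rw [Submodule.mem_toAddSubgroup] at hw ⊢
      rw [card_insert_of_notMem hB]
      split_ifs at hw with h1
      · rw [if_pos ⟨by have := h1.1; push_cast; omega,
          fun h2 => (mem_insert.1 h2).elim (fun h3 => h0 h3.symm) h1.2⟩]
        have := X_pow_smul_mem_HM hw h s
        have e : d + (s : ℤ) * ((B.card + 1 : ℕ) : ℤ) - 1 = d + s * B.card - 1 + s := by
          push_cast; ring
        rw [e]
        exact this
      · rw [(Submodule.mem_bot K).1 hw, smul_zero]; exact Submodule.zero_mem _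
    · intro B hB w hw hD
      rw [Submodule.mem_toAddSubgroup] at hw
      split_ifs at hw with h1
      · have hB' : B = univ.erase 0 := by
          refine Finset.Subset.antisymm (fun x hx => mem_erase.2 ⟨?_, mem_univ _⟩) hB
          rintro rfl
          exact h1.2 hx
        have hcard : (B.card : ℤ) = 3 := by
          rw [hB', card_erase_of_mem (mem_univ _), card_univ, Fintype.card_fin]
          rfl
        rw [hcard] at h1 hw
        refine MM.ext fun i' => ?_
        refine eq_zero_of_Dv (hw i') (s := s) ?_ (fun j => ?_)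
        · rw [Fintype.card_fin]
          have := h1.1
          push_cast
          omega
        · have := hD j.succ (mem_erase.2 ⟨Fin.succ_ne_zero j, mem_univ _⟩)
          rw [DM4_succ] at this
          exact congrFun this i'
      · exact (Submodule.mem_bot K).1 hw
    · intro A
      rw [Submodule.mem_toAddSubgroup]
      split_ifs with h1
      · exact hc A
      · rw [not_and_or, not_not] at h1
        rcases h1 with h1 | h1
        · rw [hc0 A h1]; exact Submodule.zero_mem _
        · rw [hc1 A h1]; exact Submodule.zero_mem _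
  obtain ⟨b, hb, hb'⟩ := key
  unfold SM at hb
  refine ⟨b, fun A hA => ?_, fun A => ?_, hb'⟩
  · have := hb A
    rw [if_neg (fun h => hA h.1)] at this
    exact this
  · have := hb A
    rw [Submodule.mem_toAddSubgroup] at this
    split_ifs at this
    · exact this
    · rw [(Submodule.mem_bot K).1 this]; exact Submodule.zero_mem _

end Q36.VN
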